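import Pool.Agent.Y331.EP.Trans

/-!
# MP_0a0487_an: semiconjugacies that lose no entropy, or identify few homoclinic points, and
universal covers
-/

set_option autoImplicit false

open scoped Manifold ContDiff Topology
open Set Filter

namespace Pool.Agent.Results.MP_0a0487_an.HomoclinicSeparationCovered

open Pool.Agent.H721R2 Pool.Agent.H789R2.AN Pool.Agent.TH289 Pool.Agent.TH289.K
open Pool.Agent.Y331.EP

/-- **Semiconjugacies that identify few homoclinic points, and universal covers.**
Let `f`, `g` be `C¹` Anosov diffeomorphisms of closed connected manifolds `M`, `M'` modelled on `E`,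
`E'`, and let `h : M → M'` be continuous with `h ∘ f = g ∘ h`.  Two points are homoclinically related
if they are both forward and backward asymptotic.  Consider the conditions

(a) `f` is topologically transitive and `h` loses no entropy: `h_top(f) ≤ h_top(g, h(M))`;

(b) for some bound `B` and all `x`, at most `B` points homoclinically related to `x` have the same
image as `x` (for instance `h` takes different values at different homoclinically related points);

(c) `f` is topologically transitive and, for some `C`, `#Fix(fⁿ) ≤ C #Fix(gⁿ)` for infinitely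
many `n`.

(1) Suppose that `g` has global product structure (`GPS`: each stable path and each unstable path
with the same initial point span a rectangle; for instance `g` is a hyperbolic automorphism of an
infranilmanifold); nothing is assumed on the dimensions, and `h` need not be onto.  If (a) or (b)
holds, then `M` is covered by Euclidean space: there is a surjective covering map `E → M`.

(2) Suppose that `f` or `g` has global product structure, that `dim M' ≤ dim M` and that `h` is onto.
If (a), (b) or (c) holds, then `h` is a covering map with finite fibres and both `M` and `M'` are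
covered by Euclidean space. -/
theorem result (E : Type*) [NormedAddCommGroup E] [NormedSpace ℝ E] [FiniteDimensional ℝ E]
    (M : Type*) [MetricSpace M] [CompactSpace M] [ConnectedSpace M]
    [ChartedSpace E M] [IsManifold 𝓘(ℝ, E) ∞ M] (f : Diffeomorph 𝓘(ℝ, E) 𝓘(ℝ, E) M M 1)
    (Es Eu : ∀ x : M, Submodule ℝ (TangentSpace 𝓘(ℝ, E) x)) (hf : IsAnosov f Es Eu)
    (E' : Type*) [NormedAddCommGroup E'] [NormedSpace ℝ E'] [FiniteDimensional ℝ E']
    (M' : Type*) [MetricSpace M'] [CompactSpace M'] [ConnectedSpace M']
    [ChartedSpace E' M'] [IsManifold 𝓘(ℝ, E') ∞ M'] (g : Diffeomorph 𝓘(ℝ, E') 𝓘(ℝ, E') M' M' 1)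
    (Es' Eu' : ∀ x : M', Submodule ℝ (TangentSpace 𝓘(ℝ, E') x)) (hg : IsAnosov g Es' Eu')
    (h : C(M, M')) (hfg : ∀ x, h (f x) = g (h x)) :
    (GPS g.toHomeomorph →
      ((TopTransitive f ∧ Dynamics.coverEntropy f univ ≤ Dynamics.coverEntropy g (range h)) ∨
        ∃ B : ℕ, ∀ x, {y | h y = h x ∧ Asym f x y ∧ Asym f.symm x y}.encard ≤ B) →
      ∃ π : E → M, IsCoveringMap π ∧ Function.Surjective π) ∧
    (GPS f.toHomeomorph ∨ GPS g.toHomeomorph → Module.finrank ℝ E' ≤ Module.finrank ℝ E →
      Function.Surjective h →
      ((TopTransitive f ∧ Dynamics.coverEntropy f univ ≤ Dynamics.coverEntropy g univ) ∨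
        (∃ B : ℕ, ∀ x, {y | h y = h x ∧ Asym f x y ∧ Asym f.symm x y}.encard ≤ B) ∨
        (TopTransitive f ∧ ∃ C : ℕ, ∃ᶠ n in atTop,
          {x | f^[n] x = x}.ncard ≤ C * {y | g^[n] y = y}.ncard)) →
      IsCoveringMap h ∧ (∀ y, (h ⁻¹' {y}).Finite) ∧
        (∃ π : E → M, IsCoveringMap π ∧ Function.Surjective π) ∧
        ∃ π : E' → M', IsCoveringMap π ∧ Function.Surjective π) := by
  refine ⟨fun hG hyp => ?_, fun hG hdim hs hyp => ?_⟩
  · have key := man_trans f Es Eu hf g Es' Eu' hg hG h h.continuous hfg
    have h5 : TopTransitive f ∧ GPS f.toHomeomorph ∧ ∃ N : ℕ, ∀ y, (h ⁻¹' {y}).encard ≤ N := by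
      rcases hyp with h1 | h1
      · exact (key.out 0 4).1 h1
      · exact (key.out 2 4).1 h1
    exact (man_self f Es Eu hf h5.2.1).2
  · have key := man_both' f Es Eu hf g Es' Eu' hg hG hdim h h.continuous hs hfg
    rcases hyp with h1 | h1 | h1
    · exact (key.out 0 5).1 h1
    · exact (key.out 3 5).1 h1
    · exact (key.out 1 5).1 h1

end Pool.Agent.Results.MP_0a0487_an.HomoclinicSeparationCovered
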